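import Mathlib
import Pool.Agent.Results.MP_787500_nt.AllWeightsMultiquadraticX49
import Pool.Agent.R384.Y.Top

/-!
# The Bloch–Kato Selmer groups of Hilbert modular forms with complex multiplication, all weights

Let `E_M` be the quadratic twist by `M` of `X_0(49)`, `ψ_M` its Hecke character over
`K = ℚ(√-7) = ℚ(w)`, `w² = w - 2`, and let `F = ℚ(√d_1, …, √d_n)`, a totally real field. For every
odd `k > 0` the newform of `ψ_M^{2k-1}` has a base change to `F`, a Hilbert modular newform `g` of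
parallel weight `2k`, whose Galois representation `V_g` at the prime `2` (normalized such that the
arithmetic Frobenius of `v` has characteristic polynomial `X² - t_v X + q_v`) is the restriction to
`Gal(ℚ̄/F)` of the representation of `Gal(ℚ̄/ℚ)` induced from the character `κ^k κ'^(1-k)` of
`Gal(ℚ̄/K)`; here `κ`, `κ'` are the characters by which `Gal(ℚ̄/K)` acts on the `2`-adic Tate module
of `E_M`.

Theorem: if all the numbers `M ∏_{i ∈ T} d_i` are, up to squares, numbers `D` of the class such that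
`E_D(ℚ)` is finite and `Ш(E_D/ℚ)` has no element of order two, then `H¹_f(F, V_g) = 0` for the forms
`g` of **all** weights `2k`, `k` odd. This holds for positive proportions of the `M`, for every `F`,
and for positive proportions of quadratic extensions of `F`.
-/

set_option autoImplicit false

namespace Pool.Agent.Results.MP_6e2fc3_nt.CMFormsAllWeights

open Pool.Agent.Results.MP_787500_nt.AllWeightsMultiquadraticX49
open WeierstrassCurve Filter Topology
open scoped Classical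

/-- The absolute Galois group of `ℚ`. -/
abbrev GQ : Type := QBar ≃ₐ[ℚ] QBar

/-- The absolute Galois group of `F = ℚ(s_1, …, s_n)`, a subgroup of the one of `ℚ`. -/
noncomputable def GF {n : ℕ} (s : Fin n → QBar) : Subgroup GQ :=
  (IntermediateField.adjoin ℚ (Set.range s)).fixingSubgroup

/-- The decomposition group of the place of `ℚ̄` given by the embedding `ι`. -/
def DecQ {p : ℕ} [Fact p.Prime] (ι : QBar →ₐ[ℚ] PadicAlgCl p) : Set GQ :=
  {σ | ∃ τ : PadicAlgCl p ≃ₐ[ℚ_[p]] PadicAlgCl p, ∀ x, τ (ι x) = ι (σ x)}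

/-- Its inertia group. -/
def InrQ {p : ℕ} [Fact p.Prime] (ι : QBar →ₐ[ℚ] PadicAlgCl p) : Set GQ :=
  {σ | ∃ τ : PadicAlgCl p ≃ₐ[ℚ_[p]] PadicAlgCl p, (∀ x, τ (ι x) = ι (σ x)) ∧
    ∀ z : PadicAlgCl p, ‖z‖ ≤ 1 → ‖τ z - z‖ < 1}

/-- The elements of the absolute Galois group of `ℚ` that fix `w`, as elements of the absolute Galois
group of `K = ℚ(w)` (and `1` for the other ones). -/
noncomputable def up (w : QBar) (σ : GQ) : Gal w :=
  if h : ∃ τ : Gal w, ∀ x, τ x = σ x then h.choose else 1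

/-- The value of the character `χ` of the absolute Galois group of `K` at an element which fixes
`w`. -/
noncomputable def val {w : QBar} (χ : Chr w) (σ : GQ) : ℚ_[2] := qv χ (up w σ)

/-- The representation of the absolute Galois group of `ℚ` induced by the character `χ` of the
absolute Galois group of `K`, on the space of the functions `f` with `f (h g) = χ h f g`, in the
coordinates `f 1`, `f c₀`. Here `c₀` does not fix `K`. -/
noncomputable def ind {w : QBar} (χ : Chr w) (c₀ σ : GQ) (y : ℚ_[2] × ℚ_[2]) : ℚ_[2] × ℚ_[2] :=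
  if σ w = w then (val χ σ * y.1, val χ (c₀ * σ * c₀⁻¹) * y.2)
  else (val χ (σ * c₀⁻¹) * y.2, val χ (c₀ * σ) * y.1)

/-- The continuous cocycles of the absolute Galois group of `F = ℚ(s_1, …, s_n)` with values in
`V = Ind χ`. -/
structure IsCocycleF {w : QBar} {n : ℕ} (s : Fin n → QBar) (χ : Chr w) (c₀ : GQ)
    (b : GQ → ℚ_[2] × ℚ_[2]) : Prop where
  cont : ContinuousOn b (GF s)
  mul : ∀ σ ∈ GF s, ∀ τ ∈ GF s, b (σ * τ) = b σ + ind χ c₀ σ (b τ)

/-- The restriction of the cocycle to the intersection of `S` with the absolute Galois group of `F` is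
a coboundary. -/
def TrivialOnF {w : QBar} {n : ℕ} (s : Fin n → QBar) (χ : Chr w) (c₀ : GQ) (S : Set GQ)
    (b : GQ → ℚ_[2] × ℚ_[2]) : Prop :=
  ∃ y : ℚ_[2] × ℚ_[2], ∀ σ ∈ S, σ ∈ GF s → b σ = ind χ c₀ σ y - y

/-- The Bloch–Kato conditions over `F`, for a character `χ` of Hodge–Tate weights `k > 0` at the place
`w` of `K` and `1 - k ≤ 0` at the place `1 - w`: the class is trivial on the inertia groups of the
places prime to `2`. At a place above `2` the representation `V = Ind χ` is the sum of two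
characters, and the component of the class at the one of non positive Hodge–Tate weight is trivial:
this is the second one (on which `σ` acts by `χ (c₀ σ c₀⁻¹)`) if `w` is not a unit at this
place of `ℚ̄` and the first one if `1 - w` is not a unit. -/
structure IsSelmerF {w : QBar} {n : ℕ} (s : Fin n → QBar) (χ : Chr w) (c₀ : GQ)
    (b : GQ → ℚ_[2] × ℚ_[2]) : Prop where
  odd : ∀ (p : ℕ) [Fact p.Prime] (ι : QBar →ₐ[ℚ] PadicAlgCl p), p ≠ 2 →
    TrivialOnF s χ c₀ (InrQ ι) b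
  one : ∀ ι : QBar →ₐ[ℚ] PadicAlgCl 2, ‖ι w‖ < 1 →
    ∃ v : ℚ_[2], ∀ σ ∈ DecQ ι, σ ∈ GF s → (b σ).2 = (val χ (c₀ * σ * c₀⁻¹) - 1) * v
  two : ∀ ι : QBar →ₐ[ℚ] PadicAlgCl 2, ‖ι (1 - w)‖ < 1 →
    ∃ u : ℚ_[2], ∀ σ ∈ DecQ ι, σ ∈ GF s → (b σ).1 = (val χ σ - 1) * u

/-- `V = Ind χ` is a representation, and `H¹_f(F, V) = 0` for `F = ℚ(s_1, …, s_n)`. -/
def Zero {w : QBar} {n : ℕ} (s : Fin n → QBar) (χ : Chr w) (c₀ : GQ) : Prop :=
  (∀ σ τ y, ind χ c₀ (σ * τ) y = ind χ c₀ σ (ind χ c₀ τ y)) ∧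
    ∀ b, IsCocycleF s χ c₀ b → IsSelmerF s χ c₀ b → TrivialOnF s χ c₀ Set.univ b

/-- The curve `E_M` is over `K` isomorphic to the elliptic curve `ED w (tw M)`, the absolute Galois
group of `K` acts on its `2`-adic Tate module by `κ`, `κ'`, and for `F = ℚ(√d_1, …, √d_n)` and all
odd `k > 0` the group `H¹_f(F, V)` is zero for the representation `V` of the form of weight `2k`, that
is, the one induced from `κ^k κ'^(1-k)`. -/
def AllForms (M : ℕ) {n : ℕ} (d : Fin n → ℕ) : Prop := ∀ w : QBar, w ^ 2 = w - 2 →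
  Iso (EK w M) (ED w (tw M)) ∧ (ED w (tw M)).IsElliptic ∧
  ∃ κ κ' : Chr w, TateModule (tw M) κ κ' ∧
    ∀ s : Fin n → QBar, (∀ i, s i ^ 2 = (d i : QBar)) → ∀ c₀ : GQ, c₀ w = 1 - w →
      ∀ k : ℤ, 0 < k → Odd k → Zero s (chi κ κ' k) c₀

/-! ### The proof -/

section proof

open Pool.Agent.R384 (rs rs_apply rs_cont)

variable {w : QBar} (hw : w ^ 2 = w - 2)

lemma mem_fix {σ : GQ} : σ ∈ (K w).fixingSubgroup ↔ σ w = w := by
  rw [IntermediateField.mem_fixingSubgroup_iff]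
  constructor
  · intro h
    exact h w (IntermediateField.mem_adjoin_simple_self ℚ w)
  · intro h x hx
    have h1 : K w ≤ IntermediateField.fixedField (Subgroup.zpowers σ) := by
      rw [IntermediateField.adjoin_simple_le_iff, IntermediateField.mem_fixedField_iff]
      intro τ hτ
      obtain ⟨k, rfl⟩ := hτ
      have h2 : σ ∈ MulAction.stabilizer GQ w := h
      exact (MulAction.stabilizer GQ w).zpow_mem h2 k
    exact (IntermediateField.mem_fixedField_iff _ x).1 (h1 hx) σ (Subgroup.mem_zpowers σ)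

lemma up_apply {σ : GQ} (h : σ w = w) (x : QBar) : up w σ x = σ x := by
  have h1 : ∃ τ : Gal w, ∀ x, τ x = σ x :=
    ⟨IntermediateField.fixingSubgroupEquiv (K w) ⟨σ, mem_fix.2 h⟩, fun x => rfl⟩
  unfold up
  rw [dif_pos h1]
  exact h1.choose_spec x

lemma up_rs (σ : Gal w) : up w (rs w σ) = σ := by
  have h : (rs w σ) w = w := σ.commutes ⟨w, IntermediateField.mem_adjoin_simple_self ℚ w⟩
  ext x
  rw [up_apply h]
  rfl

lemma rs_up {σ : GQ} (h : σ w = w) : rs w (up w σ) = σ := by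
  ext x
  rw [rs_apply, up_apply h]

lemma rs_w (σ : Gal w) : (rs w σ) w = w :=
  σ.commutes ⟨w, IntermediateField.mem_adjoin_simple_self ℚ w⟩

lemma up_mul {σ τ : GQ} (h : σ w = w) (h' : τ w = w) : up w (σ * τ) = up w σ * up w τ := by
  ext x
  have h2 : (σ * τ) w = w := by rw [AlgEquiv.mul_apply, h', h]
  rw [up_apply h2, AlgEquiv.mul_apply, AlgEquiv.mul_apply, up_apply h', up_apply h]

lemma val_mul {χ : Chr w} {σ τ : GQ} (h : σ w = w) (h' : τ w = w) :
    val χ (σ * τ) = val χ σ * val χ τ := by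
  unfold val
  rw [up_mul h h']
  unfold qv zv
  rw [map_mul, Units.val_mul]
  push_cast
  rfl

include hw in
lemma or_w (σ : GQ) : σ w = w ∨ σ w = 1 - w := by
  have h1 : (σ w) ^ 2 = σ w - 2 := by rw [← map_pow, hw, map_sub, map_ofNat]
  have h2 : (σ w - w) * (σ w - (1 - w)) = 0 := by linear_combination h1 - hw
  rcases mul_eq_zero.1 h2 with h3 | h3
  · exact Or.inl (sub_eq_zero.1 h3)
  · exact Or.inr (sub_eq_zero.1 h3)

include hw in
lemma w_ne : w ≠ 1 - w := by
  intro h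
  have h1 : (7 : QBar) = 0 := by linear_combination (1 - 2 * w) * h + 4 * hw
  norm_num at h1

variable {c₀ : GQ} (hc₀ : c₀ w = 1 - w)

include hc₀ in
lemma inv_w : c₀⁻¹ w = 1 - w := by
  have h1 : c₀ (1 - w) = w := by rw [map_sub, map_one, hc₀]; ring
  rw [← h1, ← AlgEquiv.mul_apply, inv_mul_cancel, AlgEquiv.one_apply, h1]

include hc₀ in
lemma conj_w {σ : GQ} (h : σ w = w) : (c₀ * σ * c₀⁻¹) w = w := by
  rw [AlgEquiv.mul_apply, AlgEquiv.mul_apply, inv_w hc₀, map_sub, map_one, h, map_sub, map_one, hc₀]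
  ring

include hc₀ in
lemma conj_w' {σ : GQ} (h : σ w = w) : (c₀⁻¹ * σ * c₀) w = w := by
  rw [AlgEquiv.mul_apply, AlgEquiv.mul_apply, hc₀, map_sub, map_one, h, map_sub, map_one,
    inv_w hc₀]
  ring

include hc₀ in
lemma left_w {σ : GQ} (h : σ w = 1 - w) : (c₀ * σ) w = w := by
  rw [AlgEquiv.mul_apply, h, map_sub, map_one, hc₀]
  ring

include hc₀ in
lemma right_w {σ : GQ} (h : σ w = 1 - w) : (σ * c₀⁻¹) w = w := by
  rw [AlgEquiv.mul_apply, inv_w hc₀, map_sub, map_one, h]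
  ring

include hw hc₀ in
lemma ind_mul {χ : Chr w} (σ τ : GQ) (y : ℚ_[2] × ℚ_[2]) :
    ind χ c₀ (σ * τ) y = ind χ c₀ σ (ind χ c₀ τ y) := by
  have hne := w_ne hw
  unfold ind
  rcases or_w hw σ with h | h <;> rcases or_w hw τ with h' | h'
  · have h2 : (σ * τ) w = w := by rw [AlgEquiv.mul_apply, h', h]
    rw [if_pos h2, if_pos h, if_pos h', val_mul h h',
      show c₀ * (σ * τ) * c₀⁻¹ = (c₀ * σ * c₀⁻¹) * (c₀ * τ * c₀⁻¹) by group,
      val_mul (conj_w hc₀ h) (conj_w hc₀ h')]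
    ext <;> simp only <;> ring
  · have hτ : ¬ τ w = w := by rw [h']; exact hne.symm
    have h2 : ¬ (σ * τ) w = w := by
      rw [AlgEquiv.mul_apply, h', map_sub, map_one, h]
      exact hne.symm
    rw [if_neg h2, if_pos h, if_neg hτ,
      show σ * τ * c₀⁻¹ = σ * (τ * c₀⁻¹) by group, val_mul h (right_w hc₀ h'),
      show c₀ * (σ * τ) = (c₀ * σ * c₀⁻¹) * (c₀ * τ) by group,
      val_mul (conj_w hc₀ h) (left_w hc₀ h')]
    ext <;> simp only <;> ring
  · have hσ : ¬ σ w = w := by rw [h]; exact hne.symm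
    have h2 : ¬ (σ * τ) w = w := by
      rw [AlgEquiv.mul_apply, h', h]
      exact hne.symm
    rw [if_neg h2, if_neg hσ, if_pos h',
      show σ * τ * c₀⁻¹ = (σ * c₀⁻¹) * (c₀ * τ * c₀⁻¹) by group,
      val_mul (right_w hc₀ h) (conj_w hc₀ h'),
      show c₀ * (σ * τ) = (c₀ * σ) * τ by group, val_mul (left_w hc₀ h) h']
    ext <;> simp only <;> ring
  · have hσ : ¬ σ w = w := by rw [h]; exact hne.symm
    have hτ : ¬ τ w = w := by rw [h']; exact hne.symm
    have h2 : (σ * τ) w = w := by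
      rw [AlgEquiv.mul_apply, h', map_sub, map_one, h]
      ring
    rw [if_pos h2, if_neg hσ, if_neg hτ,
      show σ * τ = (σ * c₀⁻¹) * (c₀ * τ) by group,
      val_mul (right_w hc₀ h) (left_w hc₀ h'),
      show c₀ * (σ * c₀⁻¹ * (c₀ * τ)) * c₀⁻¹ = (c₀ * σ) * (τ * c₀⁻¹) by group,
      val_mul (left_w hc₀ h) (right_w hc₀ h')]
    ext <;> simp only <;> ring

variable {n : ℕ} {s : Fin n → QBar}

lemma mem_GF {σ : GQ} : σ ∈ GF s ↔ ∀ i, σ (s i) = s i := by
  unfold GF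
  rw [IntermediateField.mem_fixingSubgroup_iff]
  constructor
  · intro h i
    exact h (s i) (IntermediateField.subset_adjoin _ _ ⟨i, rfl⟩)
  · intro h x hx
    have h1 : IntermediateField.adjoin ℚ (Set.range s) ≤
        IntermediateField.fixedField (Subgroup.zpowers σ) := by
      rw [IntermediateField.adjoin_le_iff]
      rintro _ ⟨i, rfl⟩
      rw [SetLike.mem_coe, IntermediateField.mem_fixedField_iff]
      intro τ hτ
      obtain ⟨k, rfl⟩ := hτ
      have h2 : σ ∈ MulAction.stabilizer GQ (s i) := h i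
      exact (MulAction.stabilizer GQ (s i)).zpow_mem h2 k
    exact (IntermediateField.mem_fixedField_iff _ x).1 (h1 hx) σ (Subgroup.mem_zpowers σ)

lemma mem_GalL {σ : Gal w} : σ ∈ GalL w s ↔ ∀ i, σ (s i) = s i := by
  rw [galL_eq]
  constructor
  · intro h i
    exact h i (Finset.mem_univ i)
  · intro h i _
    exact h i

lemma rs_mem {σ : Gal w} (h : σ ∈ GalL w s) : rs w σ ∈ GF s := by
  rw [mem_GF]
  exact mem_GalL.1 h

lemma sgn {d : Fin n → ℕ} (hs : ∀ i, s i ^ 2 = (d i : QBar)) (c : GQ) (i : Fin n) :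
    c (s i) = s i ∨ c (s i) = -(s i) := by
  have h : (c (s i)) ^ 2 = (s i) ^ 2 := by rw [← map_pow, hs, map_natCast]
  exact sq_eq_sq_iff_eq_or_eq_neg.1 h

lemma conj_mem {d : Fin n → ℕ} (hs : ∀ i, s i ^ 2 = (d i : QBar)) {σ : GQ} (h : σ ∈ GF s) (c : GQ) :
    c⁻¹ * σ * c ∈ GF s := by
  rw [mem_GF] at h ⊢
  intro i
  rw [AlgEquiv.mul_apply, AlgEquiv.mul_apply]
  have h1 : c⁻¹ (c (s i)) = s i := by
    rw [← AlgEquiv.mul_apply, inv_mul_cancel, AlgEquiv.one_apply]
  rcases sgn hs c i with h2 | h2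
  · rw [h2] at h1 ⊢
    rw [h i, h1]
  · rw [h2] at h1 ⊢
    rw [map_neg, h i, h1]

include hw hc₀ in
/-- **From the characters to the representation.** -/
theorem zero_of {d : Fin n → ℕ} (hs : ∀ i, s i ^ 2 = (d i : QBar)) {χ : Chr w}
    (hz : SelmerZero (1 - w) (GalL w s) χ) : Zero s χ c₀ := by
  refine ⟨ind_mul hw hc₀, fun b hb hsel => ?_⟩
  -- the first component
  obtain ⟨y₁, hy₁⟩ : ∃ y₁ : ℚ_[2], ∀ σ ∈ GalL w s, (b (rs w σ)).1 = (qv χ σ - 1) * y₁ := by
    have g1 : ContinuousOn (fun σ => (b (rs w σ)).1) (GalL w s) := by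
      refine (continuous_fst.comp_continuousOn hb.cont).comp (rs_cont w).continuousOn ?_
      intro σ hσ
      exact rs_mem hσ
    have g2 : ∀ σ ∈ GalL w s, ∀ τ ∈ GalL w s,
        (b (rs w (σ * τ))).1 = (b (rs w σ)).1 + qv χ σ * (b (rs w τ)).1 := by
      intro σ hσ τ hτ
      rw [map_mul, hb.mul _ (rs_mem hσ) _ (rs_mem hτ), Prod.fst_add]
      unfold ind
      rw [if_pos (rs_w σ)]
      show _ + val χ (rs w σ) * _ = _
      unfold val
      rw [up_rs]
    have g3 : ∀ (p : ℕ) [Fact p.Prime] (ι : QBar →ₐ[ℚ] PadicAlgCl p), p ≠ 2 →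
        TrivialOn (GalL w s) χ (Inr ι) (fun σ => (b (rs w σ)).1) := by
      intro p _ ι hp
      obtain ⟨y, hy⟩ := hsel.odd p ι hp
      refine ⟨y.1, fun σ hσ hσ' => ?_⟩
      have h1 := hy (rs w σ) (by
        obtain ⟨τ, h1, h2⟩ := hσ
        exact ⟨τ, h1, h2⟩) (rs_mem hσ')
      show (b (rs w σ)).1 = _
      rw [h1]
      unfold ind
      rw [if_pos (rs_w σ)]
      show val χ (rs w σ) * y.1 - y.1 = _
      unfold val
      rw [up_rs]
      ring
    have g4 : ∀ ι : QBar →ₐ[ℚ] PadicAlgCl 2, ‖ι (1 - w)‖ < 1 →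
        TrivialOn (GalL w s) χ (Dec ι) (fun σ => (b (rs w σ)).1) := by
      intro ι hι
      obtain ⟨u, hu⟩ := hsel.two ι hι
      refine ⟨u, fun σ hσ hσ' => ?_⟩
      have h1 := hu (rs w σ) (by
        obtain ⟨τ, h1⟩ := hσ
        exact ⟨τ, h1⟩) (rs_mem hσ')
      show (b (rs w σ)).1 = _
      rw [h1]
      unfold val
      rw [up_rs]
    obtain ⟨y, hy⟩ := hz (fun σ => (b (rs w σ)).1) ⟨g1, g2⟩ ⟨g3, g4⟩
    exact ⟨y, fun σ hσ => hy σ (Set.mem_univ σ) hσ⟩
  -- the second component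
  have hco : ∀ σ : Gal w, c₀ * (c₀⁻¹ * rs w σ * c₀) * c₀⁻¹ = rs w σ := fun σ => by group
  obtain ⟨y₂, hy₂⟩ : ∃ y₂ : ℚ_[2], ∀ σ ∈ GalL w s,
      (b (c₀⁻¹ * rs w σ * c₀)).2 = (qv χ σ - 1) * y₂ := by
    have g1 : ContinuousOn (fun σ => (b (c₀⁻¹ * rs w σ * c₀)).2) (GalL w s) := by
      refine (continuous_snd.comp_continuousOn hb.cont).comp
        (Continuous.continuousOn ?_) ?_
      · exact (continuous_const.mul (rs_cont w)).mul continuous_const
      · intro σ hσ
        exact conj_mem hs (rs_mem hσ) c₀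
    have g2 : ∀ σ ∈ GalL w s, ∀ τ ∈ GalL w s, (b (c₀⁻¹ * rs w (σ * τ) * c₀)).2 =
        (b (c₀⁻¹ * rs w σ * c₀)).2 + qv χ σ * (b (c₀⁻¹ * rs w τ * c₀)).2 := by
      intro σ hσ τ hτ
      rw [map_mul, show c₀⁻¹ * (rs w σ * rs w τ) * c₀ =
        (c₀⁻¹ * rs w σ * c₀) * (c₀⁻¹ * rs w τ * c₀) by group,
        hb.mul _ (conj_mem hs (rs_mem hσ) c₀) _ (conj_mem hs (rs_mem hτ) c₀), Prod.snd_add]
      unfold ind
      rw [if_pos (conj_w' hc₀ (rs_w σ)), hco]
      show _ + val χ (rs w σ) * _ = _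
      unfold val
      rw [up_rs]
    have g3 : ∀ (p : ℕ) [Fact p.Prime] (ι : QBar →ₐ[ℚ] PadicAlgCl p), p ≠ 2 →
        TrivialOn (GalL w s) χ (Inr ι) (fun σ => (b (c₀⁻¹ * rs w σ * c₀)).2) := by
      intro p _ ι hp
      obtain ⟨y, hy⟩ := hsel.odd p (ι.comp (c₀ : QBar →ₐ[ℚ] QBar)) hp
      refine ⟨y.2, fun σ hσ hσ' => ?_⟩
      have h1 := hy (c₀⁻¹ * rs w σ * c₀) (by
        obtain ⟨τ, h1, h2⟩ := hσ
        refine ⟨τ, fun x => ?_, h2⟩
        show τ (ι (c₀ x)) = ι (c₀ ((c₀⁻¹ * rs w σ * c₀) x))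
        rw [h1, ← AlgEquiv.mul_apply, show c₀ * (c₀⁻¹ * rs w σ * c₀) = rs w σ * c₀ by group]
        rfl) (conj_mem hs (rs_mem hσ') c₀)
      show (b (c₀⁻¹ * rs w σ * c₀)).2 = _
      rw [h1]
      unfold ind
      rw [if_pos (conj_w' hc₀ (rs_w σ)), hco]
      show val χ (rs w σ) * y.2 - y.2 = _
      unfold val
      rw [up_rs]
      ring
    have g4 : ∀ ι : QBar →ₐ[ℚ] PadicAlgCl 2, ‖ι (1 - w)‖ < 1 →
        TrivialOn (GalL w s) χ (Dec ι) (fun σ => (b (c₀⁻¹ * rs w σ * c₀)).2) := by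
      intro ι hι
      obtain ⟨v, hv⟩ := hsel.one (ι.comp (c₀ : QBar →ₐ[ℚ] QBar)) (by
        show ‖ι (c₀ w)‖ < 1
        rwa [hc₀])
      refine ⟨v, fun σ hσ hσ' => ?_⟩
      have h1 := hv (c₀⁻¹ * rs w σ * c₀) (by
        obtain ⟨τ, h1⟩ := hσ
        refine ⟨τ, fun x => ?_⟩
        show τ (ι (c₀ x)) = ι (c₀ ((c₀⁻¹ * rs w σ * c₀) x))
        rw [h1, ← AlgEquiv.mul_apply, show c₀ * (c₀⁻¹ * rs w σ * c₀) = rs w σ * c₀ by group]
        rfl) (conj_mem hs (rs_mem hσ') c₀)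
      show (b (c₀⁻¹ * rs w σ * c₀)).2 = _
      rw [h1, hco]
      unfold val
      rw [up_rs]
    obtain ⟨y, hy⟩ := hz (fun σ => (b (c₀⁻¹ * rs w σ * c₀)).2) ⟨g1, g2⟩ ⟨g3, g4⟩
    exact ⟨y, fun σ hσ => hy σ (Set.mem_univ σ) hσ⟩
  -- the restriction to the absolute Galois group of `F K`
  set y : ℚ_[2] × ℚ_[2] := (y₁, y₂) with hy
  set b' : GQ → ℚ_[2] × ℚ_[2] := fun σ => b σ - (ind χ c₀ σ y - y) with hb'
  have hlin : ∀ (σ : GQ) (u v : ℚ_[2] × ℚ_[2]), ind χ c₀ σ (u - v) = ind χ c₀ σ u - ind χ c₀ σ v := by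
    intro σ u v
    unfold ind
    split_ifs
    · ext <;> simp only [Prod.fst_sub, Prod.snd_sub] <;> ring
    · ext <;> simp only [Prod.fst_sub, Prod.snd_sub] <;> ring
  have hmul : ∀ σ ∈ GF s, ∀ τ ∈ GF s, b' (σ * τ) = b' σ + ind χ c₀ σ (b' τ) := by
    intro σ hσ τ hτ
    simp only [hb']
    rw [hb.mul σ hσ τ hτ, ind_mul hw hc₀, hlin, hlin]
    abel
  have hzero : ∀ σ ∈ GF s, σ w = w → b' σ = 0 := by
    intro σ hσ hσw
    have h1 : up w σ ∈ GalL w s := by
      rw [mem_GalL]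
      intro i
      rw [up_apply hσw]
      exact mem_GF.1 hσ i
    have h2 := hy₁ _ h1
    rw [rs_up hσw] at h2
    -- the conjugate
    have hσ' : c₀ * σ * c₀⁻¹ ∈ GF s := by
      have := conj_mem hs hσ c₀⁻¹
      rwa [inv_inv] at this
    have h3 : up w (c₀ * σ * c₀⁻¹) ∈ GalL w s := by
      rw [mem_GalL]
      intro i
      rw [up_apply (conj_w hc₀ hσw)]
      exact mem_GF.1 hσ' i
    have h4 := hy₂ _ h3
    rw [rs_up (conj_w hc₀ hσw), show c₀⁻¹ * (c₀ * σ * c₀⁻¹) * c₀ = σ by group] at h4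
    simp only [hb']
    unfold ind
    rw [if_pos hσw]
    ext
    · simp only [Prod.fst_sub, Prod.fst_zero]
      rw [h2]
      unfold val
      ring
    · simp only [Prod.snd_sub, Prod.snd_zero]
      rw [h4]
      unfold val
      ring
  -- the other elements
  by_cases hex : ∃ τ ∈ GF s, ¬ τ w = w
  · obtain ⟨τ, hτ, hτw⟩ := hex
    have hτw' : τ w = 1 - w := (or_w hw τ).resolve_left hτw
    have hall : ∀ σ ∈ GF s, ¬ σ w = w → b' σ = b' τ := by
      intro σ hσ hσw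
      have hσw' : σ w = 1 - w := (or_w hw σ).resolve_left hσw
      have h1 : (τ⁻¹ * σ) ∈ GF s := (GF s).mul_mem ((GF s).inv_mem hτ) hσ
      have h2 : (τ⁻¹ * σ) w = w := by
        rw [AlgEquiv.mul_apply, hσw', map_sub, map_one, inv_w hτw']
        ring
      have h3 := hmul τ hτ _ h1
      rw [mul_inv_cancel_left, hzero _ h1 h2] at h3
      have h4 : ind χ c₀ τ 0 = 0 := by
        have := hlin τ 0 0
        rwa [sub_self, sub_self] at this
      rw [h4, add_zero] at h3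
      exact h3
    have hfix : ∀ σ ∈ GF s, σ w = w → ind χ c₀ σ (b' τ) = b' τ := by
      intro σ hσ hσw
      have h1 := hmul σ hσ τ hτ
      rw [hzero σ hσ hσw, zero_add, hall (σ * τ) ((GF s).mul_mem hσ hτ) (by
        rw [AlgEquiv.mul_apply, hτw', map_sub, map_one, hσw]
        exact (w_ne hw).symm)] at h1
      exact h1.symm
    have hneg : ∀ σ ∈ GF s, ¬ σ w = w → ind χ c₀ σ (b' τ) = -(b' τ) := by
      intro σ hσ hσw
      have hσw' : σ w = 1 - w := (or_w hw σ).resolve_left hσw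
      have h1 := hmul σ hσ τ hτ
      have h2 : (σ * τ) w = w := by
        rw [AlgEquiv.mul_apply, hτw', map_sub, map_one, hσw']
        ring
      rw [hzero _ ((GF s).mul_mem hσ hτ) h2, hall σ hσ hσw] at h1
      exact (neg_eq_of_add_eq_zero_right h1.symm).symm
    have h20 : (2 : ℚ_[2]) ≠ 0 := two_ne_zero
    -- half of the value
    set v : ℚ_[2] × ℚ_[2] := ((b' τ).1 / 2, (b' τ).2 / 2) with hv
    have hvv : b' τ = v + v := by
      rw [hv]
      ext
      · simp only [Prod.fst_add]; ring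
      · simp only [Prod.snd_add]; ring
    have hadd : ∀ (σ : GQ) (u v : ℚ_[2] × ℚ_[2]),
        ind χ c₀ σ (u + v) = ind χ c₀ σ u + ind χ c₀ σ v := by
      intro σ u v
      unfold ind
      split_ifs
      · ext <;> simp only [Prod.fst_add, Prod.snd_add] <;> ring
      · ext <;> simp only [Prod.fst_add, Prod.snd_add] <;> ring
    have hhalf : ∀ u z : ℚ_[2] × ℚ_[2], u + u = z + z → u = z := by
      intro u z h
      have h1 := congrArg Prod.fst h
      have h2 := congrArg Prod.snd h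
      simp only [Prod.fst_add, Prod.snd_add] at h1 h2
      ext
      · have : (2 : ℚ_[2]) * (u.1 - z.1) = 0 := by linear_combination h1
        exact sub_eq_zero.1 ((mul_eq_zero.1 this).resolve_left h20)
      · have : (2 : ℚ_[2]) * (u.2 - z.2) = 0 := by linear_combination h2
        exact sub_eq_zero.1 ((mul_eq_zero.1 this).resolve_left h20)
    refine ⟨y - v, fun σ _ hσ => ?_⟩
    have hbσ : b σ = b' σ + (ind χ c₀ σ y - y) := by simp only [hb']; abel
    by_cases hσw : σ w = w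
    · have h1 : ind χ c₀ σ v = v := by
        apply hhalf
        rw [← hadd, ← hvv]
        exact hfix σ hσ hσw
      rw [hbσ, hzero σ hσ hσw, hlin, h1]
      abel
    · have h1 : ind χ c₀ σ v = -v := by
        apply hhalf
        rw [← hadd, ← hvv, hneg σ hσ hσw, hvv]
        abel
      rw [hbσ, hall σ hσ hσw, hvv, hlin, h1]
      abel
  · push Not at hex
    refine ⟨y, fun σ _ hσ => ?_⟩
    have h1 := hzero σ hσ (hex σ hσ)
    simp only [hb'] at h1
    exact sub_eq_zero.1 h1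

theorem forms_of {M : ℕ} {d : Fin n → ℕ} (h : AllWeights M d) : AllForms M d := by
  intro w hw
  obtain ⟨h1, h2, κ, κ', h3, h4⟩ := h w hw
  exact ⟨h1, h2, κ, κ', h3, fun s hs c₀ hc₀ k hk hk' => zero_of hw hc₀ hs (h4 s hs k hk hk').1⟩

lemma atLeast_mono {y : ℝ} {P P' : ℕ → Prop} (h : ∀ D, P D → P' D) (hP : AtLeast y P) :
    AtLeast y P' := by
  intro x hx
  filter_upwards [hP x hx] with X hX
  refine hX.trans_le ?_
  unfold prop
  refine div_le_div_of_nonneg_right (Nat.cast_le.2 (Finset.card_le_card fun D hD => ?_))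
    (Nat.cast_nonneg _)
  obtain ⟨h1, h2⟩ := Finset.mem_filter.1 hD
  exact Finset.mem_filter.2 ⟨h1, h2.1, h D h2.2⟩

end proof

/-- **The Bloch–Kato Selmer groups of Hilbert modular forms with complex multiplication.** -/
theorem result :
    (∀ (n M : ℕ) (d : Fin n → ℕ), Good M d → AllForms M d) ∧
    (∀ (n M : ℕ) (d : Fin n → ℕ), InClass M d →
      AtLeast (c ^ 2 ^ n) fun D => AllForms (M * D) d) ∧
    (∀ (n M : ℕ) (d : Fin n → ℕ), InClass M d → Good M d → AtLeast (c ^ 2 ^ n) fun D =>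
      Ind (add d D) ∧ Good M (add d D) ∧ AllForms M (add d D)) ∧
    0.4194 < c ∧ c < 0.4195 := by
  obtain ⟨h1, h2, h3, h4, h5⟩ :=
    Pool.Agent.Results.MP_787500_nt.AllWeightsMultiquadraticX49.result
  refine ⟨fun n M d h => forms_of (h1 n M d h), fun n M d h => ?_, fun n M d h h' => ?_, h4, h5⟩
  · exact atLeast_mono (fun D hD => forms_of hD) (h2 n M d h)
  · exact atLeast_mono (fun D hD => ⟨hD.1, hD.2.1, forms_of hD.2.2⟩) (h3 n M d h h')

end Pool.Agent.Results.MP_6e2fc3_nt.CMFormsAllWeights
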