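import Mathlib
import Pool.Agent.Results.MP_6e2fc3_nt.CMFormsAllWeights
import Pool.Agent.R384.Y.Hev

/-!
# The Bloch–Kato Selmer groups of Hilbert modular forms with complex multiplication whose `L`-function
# has a zero of high order at the centre

Let `E_M` be the quadratic twist by `M` of `X_0(49)`, `ψ_M` its Hecke character over
`K = ℚ(√-7) = ℚ(w)`, `w² = w - 2`, and let `F = ℚ(√d_1, …, √d_n)`, a totally real field. For every
**even** `k > 0` the newform of `ψ_M^{2k-1}` has a base change to `F`, a Hilbert modular newform `g` of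
parallel weight `2k`. Its Galois representation `V_g` at the prime `2` is the restriction to
`Gal(ℚ̄/F)` of the representation of `Gal(ℚ̄/ℚ)` induced from the character `κ^k κ'^(1-k)` of
`Gal(ℚ̄/K)`; here `κ`, `κ'` are the characters by which `Gal(ℚ̄/K)` acts on the `2`-adic Tate module
of `E_M`. The `L`-function of `g` is the product of the `2^n = [F : ℚ]` `L`-functions of the
`ψ_D^{2k-1}`, `D = M ∏_{i ∈ T} d_i`; for the `D` of the class all of them have root number `-1` and so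
they vanish at the centre.

Theorem: if all these `D` are, up to squares, numbers of the class such that `E_D(ℚ)` is finite and
`Ш(E_D/ℚ)` has no element of order two, then `H¹_f(F, V_g)` has dimension at most `2^n = [F : ℚ]`, the
order of vanishing that the root numbers force, for the forms `g` of **all** weights `2k`, `k` even.
This holds for positive proportions of the `M`, for every `F`.
-/

set_option autoImplicit false

namespace Pool.Agent.Results.MP_6e2fc3_nt.CMFormsEvenWeights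

open Pool.Agent.Results.MP_787500_nt.AllWeightsMultiquadraticX49
open Pool.Agent.Results.MP_6e2fc3_nt.CMFormsAllWeights
open Pool.Agent.Hev384
open WeierstrassCurve Filter Topology
open scoped Classical

/-- The cocycles of the absolute Galois group of `F = ℚ(s_1, …, s_n)` with values in `V = Ind χ` which
satisfy the Bloch–Kato conditions. -/
def SelF {w : QBar} {n : ℕ} (s : Fin n → QBar) (χ : Chr w) (c₀ : GQ) :
    Submodule ℚ_[2] (GQ → ℚ_[2] × ℚ_[2]) where
  carrier := {b | IsCocycleF s χ c₀ b ∧ IsSelmerF s χ c₀ b}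
  add_mem' := by
    rintro a b ⟨h1, h2⟩ ⟨g1, g2⟩
    refine ⟨⟨h1.cont.add g1.cont, fun σ hσ τ hτ => ?_⟩, fun p _ ι hp =>
      triv_add (h2.odd p ι hp) (g2.odd p ι hp), fun ι hι => ?_, fun ι hι => ?_⟩
    · rw [Pi.add_apply, Pi.add_apply, Pi.add_apply, h1.mul σ hσ τ hτ, g1.mul σ hσ τ hτ, ind_add]
      abel
    · obtain ⟨y, hy⟩ := h2.one ι hι
      obtain ⟨z, hz⟩ := g2.one ι hι
      exact ⟨y + z, fun σ h h' => by rw [Pi.add_apply, Prod.snd_add, hy σ h h', hz σ h h']; ring⟩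
    · obtain ⟨y, hy⟩ := h2.two ι hι
      obtain ⟨z, hz⟩ := g2.two ι hι
      exact ⟨y + z, fun σ h h' => by rw [Pi.add_apply, Prod.fst_add, hy σ h h', hz σ h h']; ring⟩
  zero_mem' := ⟨⟨continuousOn_const, fun σ _ τ _ => by
      rw [Pi.zero_apply, Pi.zero_apply, Pi.zero_apply, ind_zero, add_zero]⟩,
    fun p _ ι _ => triv_zero, fun ι _ => ⟨0, fun σ _ _ => by simp⟩,
    fun ι _ => ⟨0, fun σ _ _ => by simp⟩⟩
  smul_mem' := by
    rintro a b ⟨h1, h2⟩
    refine ⟨⟨h1.cont.const_smul a, fun σ hσ τ hτ => ?_⟩, fun p _ ι hp =>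
      triv_smul a (h2.odd p ι hp), fun ι hι => ?_, fun ι hι => ?_⟩
    · rw [Pi.smul_apply, Pi.smul_apply, Pi.smul_apply, h1.mul σ hσ τ hτ, ind_smul, smul_add]
    · obtain ⟨y, hy⟩ := h2.one ι hι
      exact ⟨a * y, fun σ h h' => by
        rw [Pi.smul_apply, Prod.smul_snd, hy σ h h', smul_eq_mul]; ring⟩
    · obtain ⟨y, hy⟩ := h2.two ι hι
      exact ⟨a * y, fun σ h h' => by
        rw [Pi.smul_apply, Prod.smul_fst, hy σ h h', smul_eq_mul]; ring⟩

/-- The coboundaries. -/
def CobF {w : QBar} {n : ℕ} (s : Fin n → QBar) (χ : Chr w) (c₀ : GQ) :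
    Submodule ℚ_[2] (GQ → ℚ_[2] × ℚ_[2]) where
  carrier := {b | TrivialOnF s χ c₀ Set.univ b}
  add_mem' := fun h h' => triv_add h h'
  zero_mem' := triv_zero
  smul_mem' := fun a _ h => triv_smul a h

/-- The dimension of the quotient of `A` by its intersection with `B`. -/
noncomputable def qdim {V : Type} [AddCommGroup V] [Module ℚ_[2] V] (A B : Submodule ℚ_[2] V) :
    Cardinal := Module.rank ℚ_[2] (A ⧸ B.submoduleOf A)

/-- The dimension of `H¹_f(F, V)`, `V = Ind χ`, `F = ℚ(s_1, …, s_n)`. -/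
noncomputable def dimF {w : QBar} {n : ℕ} (s : Fin n → QBar) (χ : Chr w) (c₀ : GQ) : Cardinal :=
  qdim (SelF s χ c₀) (CobF s χ c₀)

/-- `V = Ind χ` is a representation, and `H¹_f(F, V)` has dimension at most `2 ^ n`, for
`F = ℚ(s_1, …, s_n)`. -/
def AtMost {w : QBar} {n : ℕ} (s : Fin n → QBar) (χ : Chr w) (c₀ : GQ) : Prop :=
  (∀ σ τ y, ind χ c₀ (σ * τ) y = ind χ c₀ σ (ind χ c₀ τ y)) ∧ dimF s χ c₀ ≤ ((2 ^ n : ℕ) : Cardinal)

/-- The curve `E_M` is over `K` isomorphic to the elliptic curve `ED w (tw M)`, the absolute Galois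
group of `K` acts on its `2`-adic Tate module by `κ`, `κ'`, and for `F = ℚ(√d_1, …, √d_n)` and all
even `k > 0` the group `H¹_f(F, V)` has dimension at most `2 ^ n` for the representation `V` of the form
of weight `2k`, that is, the one induced from `κ^k κ'^(1-k)`. -/
def EvenForms (M : ℕ) {n : ℕ} (d : Fin n → ℕ) : Prop := ∀ w : QBar, w ^ 2 = w - 2 →
  Iso (EK w M) (ED w (tw M)) ∧ (ED w (tw M)).IsElliptic ∧
  ∃ κ κ' : Chr w, TateModule (tw M) κ κ' ∧
    ∀ s : Fin n → QBar, (∀ i, s i ^ 2 = (d i : QBar)) → ∀ c₀ : GQ, c₀ w = 1 - w →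
      ∀ k : ℤ, 0 < k → Even k → AtMost s (chi κ κ' k) c₀

/-! ### The proof -/

section proof

open Pool.Agent.Kdt384
open Pool.Agent.R426.QB (Ac8 GO Nsq)

variable {n : ℕ}

lemma even_of {M : ℕ} {d : Fin n → ℕ} (hG : Good M d) : EvenForms M d := by
  intro w hw
  obtain ⟨hM0, -⟩ := good_ne hG
  obtain ⟨κ, κ', ht, r, I, kd⟩ := exists_tate hw hM0
  refine ⟨tw_iso hw M, elliptic (tw_ne hM0) hw, κ, κ', ht, fun s hs c₀ hc₀ k _ hk =>
    ⟨ind_mul hw hc₀, ?_⟩⟩
  obtain ⟨h1, -⟩ := rk_all_weights hw hG kd hs k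
  rw [if_pos hk] at h1
  have key : ∀ b ∈ SelF s (chi κ κ' k) c₀, fstL w b ∈ Pool.Agent.R384.CobM (chi κ κ' k)
      (Pool.Agent.R384.fixs s Finset.univ) → b ∈ CobF s (chi κ κ' k) c₀ := by
    rintro b ⟨hb, -⟩ h
    exact fst_triv hw hc₀ hs hb h
  exact (rank_into (fstL w) (fun b hb => fst_sel hw hb) key).trans h1

lemma prop_one' {M : ℕ} {d : Fin n → ℕ} (hM : Adm M) (hd : ∀ i, Adm (d i)) (hI : Ind d)
    {x : ℝ} (hx : x < c ^ 2 ^ n) :
    ∀ᶠ X : ℕ in atTop, x < prop (fun D => EvenForms (M * D) d) X := by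
  have h := Pool.Agent.R426.QB.prop_field Pool.Agent.Y687.JQ.t_JDEN (n := n)
    (d := fun i => (d i : ℤ)) (nsq_of (fun i => (hd i).1.ne_zero) hI)
    (fun i => acS_of (hd i)) (N := (M : ℤ)) (acS_of hM)
  filter_upwards [h.eventually_const_lt hx] with X hX
  refine lt_of_lt_of_le hX (prop_mono (P := fun D => GO (fun i => (d i : ℤ)) ((M : ℤ) * D))
    (fun D hD => even_of (good_of ?_ (fun i => (hd i).2.1) ?_)) X)
  · rw [Nat.mul_mod, hM.2.1, hD.1.2]
  · have h1 := hD.2
    push_cast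
    exact h1

end proof

/-- **The Bloch–Kato Selmer groups of Hilbert modular forms with complex multiplication, even
weights.** -/
theorem result :
    (∀ (n M : ℕ) (d : Fin n → ℕ), Good M d → EvenForms M d) ∧
    (∀ (n M : ℕ) (d : Fin n → ℕ), InClass M d →
      AtLeast (c ^ 2 ^ n) fun D => EvenForms (M * D) d) ∧
    (∀ (n M : ℕ) (d : Fin n → ℕ), InClass M d → Good M d → AtLeast (c ^ 2 ^ n) fun D =>
      Ind (add d D) ∧ Good M (add d D) ∧ EvenForms M (add d D)) ∧
    0.4194 < c ∧ c < 0.4195 := by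
  refine ⟨fun n M d h => even_of h, ?_, fun n M d h h' => ?_,
    Pool.Agent.Y948.CQ.t_C2.2.2.2.1, Pool.Agent.Y948.CQ.t_C2.2.2.2.2⟩
  · rintro n M d ⟨hM, hd, hI⟩ x hx
    exact prop_one' hM hd hI hx
  · exact atLeast_mono (fun D hD => ⟨hD.1, hD.2.1, even_of hD.2.1⟩)
      (Pool.Agent.Results.MP_787500_nt.AllWeightsMultiquadraticX49.result.2.2.1 n M d h h')

end Pool.Agent.Results.MP_6e2fc3_nt.CMFormsEvenWeights
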