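import Pool.Agent.R901.LD.NfE
import Pool.Agent.R901.EC.Fields

/-!
# The Bloch–Kato rank formula for the base changes of weight two forms to all the fields in infinite
# abelian towers of odd exponent `l ^ n`

`E_1, …, E_m` are elliptic curves over `ℚ`, `E_i : y² = x³ + a_i x + b_i`, given with their newforms
`f_i`, with `L(E_i, 1) ≠ 0`, and `l` is an odd prime such that the `l`-Selmer groups of the `E_i` over
`ℚ` are trivial (by Kolyvagin's theorem this is so for all but finitely many `l`).  A prime `q` is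
admissible if `E_i` has good reduction at `q ≠ 2` and the number of the points of `E_i` over `ℤ/q` is
not divisible by `l`, for all `i`.  Let `n` be given.

Let `F` be a number field which is abelian over `ℚ` with characters of order dividing `l ^ n` and of
squarefree conductors composed of admissible primes.  It is totally real, since `l` is odd.  Let
`g_i` be the Hilbert modular form over `F` which is the base change of `f_i`; its Galois
representation is `V_l E_i`, restricted to `F`, and its `L`-function is `L(E_i/F, s + 1)`.  We say that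
the formula holds for `F` if `L(E_i/F, s)` is entire with `L(E_i/F, 1) ≠ 0` and the Bloch–Kato Selmer
group `H¹_f(F, V_l E_i)` is zero, for all `i`; so both sides of the rank formula are zero.  Moreover we
include that `E_i(F)` is finite of order prime to `l` and that `Ш(E_i/F)[l^∞] = 0`.

Theorem: every infinite group `H` of such characters has an infinite subgroup `H'` such that the formula
holds for all number fields `F` contained in the infinite abelian extension of `ℚ` attached to `H'`.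

The proof.  The characters in `H` with `χ(p) = 1` for the primes `p` dividing `2 l (4 a_i³ + 27 b_i²)`
for some `i` form a subgroup `H_1` of finite index.  The nonvanishing for an infinite subgroup is from the
library of the starting result `InfiniteAbelianTowers` of problem `MP_6dc9d1_nt` (files `Y18/LP`).  The arithmetic side is new (`Pool/Agent/R901/LD`): a
descent with `l`-torsion cocycles along extensions of `l`-power degree.
-/

set_option autoImplicit false

open Complex UpperHalfPlane MatrixGroups CongruenceSubgroup NumberField IsDedekindDomain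

namespace Pool.Agent.Results.MP_6e2fc3_nt.OddDegreeTowers

open Pool.Agent.Y667.BKP (H1f)

/-- `N_p`: the number of pairs `(x, y) ∈ (ℤ/p)²` with `y² = x³ + a x + b`. -/
noncomputable def pointCount (a b : ℤ) (p : ℕ) : ℕ :=
  Nat.card {q : ZMod p × ZMod p // q.2 ^ 2 = q.1 ^ 3 + (a : ZMod p) * q.1 + (b : ZMod p)}

/-- `p` is a prime not dividing `2 Δ`, `Δ = -4 a³ - 27 b²`. -/
def GoodPrime (a b : ℤ) (p : ℕ) : Prop :=
  p.Prime ∧ ¬ ((p : ℤ) ∣ 2 * (-4 * a ^ 3 - 27 * b ^ 2))

open Classical in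
/-- `L(E, 1) ≠ 0` for `E : y² = x³ + a x + b`: there is an entire function `F` which for
`Re s > 3/2` is the incomplete L-series `∏_{p ∤ 2Δ} (1 - a_p p^{-s} + p^{1-2s})⁻¹`, `a_p = p - N_p`,
of `E` over `ℚ`, and `F(1) ≠ 0`. -/
def AnalyticRankZero (a b : ℤ) : Prop :=
  ∃ F : ℂ → ℂ, (Differentiable ℂ F ∧ ∀ s : ℂ, (3 : ℝ) / 2 < s.re →
    HasProd (fun p : ℕ => if GoodPrime a b p then
      (1 - ((p : ℂ) - (pointCount a b p : ℂ)) * (p : ℂ) ^ (-s) + (p : ℂ) ^ (1 - 2 * s))⁻¹ else 1)
      (F s)) ∧ F 1 ≠ 0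

/-- `q` is a prime, `q ∤ 2 Δ`, and the number `N_q + 1` of the points of `E : y² = x³ + a x + b` over
`ℤ/q` (with the point at infinity) is not divisible by `l`. -/
def Admissible (a b : ℤ) (l q : ℕ) : Prop := GoodPrime a b q ∧ ¬ l ∣ pointCount a b q + 1

/-- The families `c = (c_q)` of characters `c_q` of the groups `(ℤ/q)ˣ`.  The family with `c_q = 1`
except for the primes `q` of a finite set stands for the Dirichlet character `χ_c = ∏ c_q` of
squarefree conductor; this is an isomorphism of groups. -/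
abbrev Fam : Type := (q : ℕ) → (ZMod q)ˣ →* ℂˣ

open Classical in
/-- The set of the `q` with `c_q ≠ 1` (if it is finite). -/
noncomputable def supp (c : Fam) : Finset ℕ :=
  if h : {q | c q ≠ 1}.Finite then h.toFinset else ∅

/-- The conductor of `χ_c`. -/
noncomputable def conductor (c : Fam) : ℕ := ∏ q ∈ supp c, q

/-- The value `χ_c(m)`. -/
noncomputable def value (c : Fam) (m : ℕ) : ℂ :=
  ∏ q ∈ supp c, if h : m.Coprime q then (c q (ZMod.unitOfCoprime m h) : ℂ) else 0

open Classical in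
/-- The Gaussian period `∑ exp(2 π i u / M)`, `0 ≤ u < M`, `χ_c(u) = 1`, where `M` is the conductor of
`χ_c`.  It generates the cyclic extension of `ℚ` attached to `χ_c` (the subfield of `ℚ(exp(2 π i / M))`
fixed by the kernel of `χ_c`; recall that `M` is squarefree). -/
noncomputable def period (c : Fam) : ℂ :=
  ∑ u ∈ (Finset.range (conductor c)).filter (fun u => value c u = 1),
    Complex.exp (2 * Real.pi * Complex.I / (conductor c : ℕ)) ^ u

/-- `H` is a group of Dirichlet characters of order dividing `l ^ n` and of squarefree conductors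
composed of primes admissible for all the curves. -/
structure IsCharGroup {m : ℕ} (a b : Fin m → ℤ) (l n : ℕ) (H : Subgroup Fam) : Prop where
  pow : ∀ c ∈ H, c ^ (l ^ n) = 1
  finite : ∀ c ∈ H, {q | c q ≠ 1}.Finite
  admissible : ∀ c ∈ H, ∀ q, c q ≠ 1 → q.Prime ∧ ∀ i, Admissible (a i) (b i) l q

/-- The `n`-th Fourier coefficient of `f`. -/
noncomputable def coef {N : ℕ} (f : CuspForm (Gamma0 N : Subgroup (GL (Fin 2) ℝ)) 2) (n : ℕ) : ℂ :=
  (qExpansion 1 f).coeff n

/-- `f ∈ S_2(Γ₀(N))` is the newform of the elliptic curve `E : y² = x³ + a x + b`, with its standard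
properties: the Fourier coefficients `c(n)` of `f` are real with `c(1) = 1`, they satisfy the Hecke
relations `c(mn) = c(m) c(n)` for coprime `m`, `n` and `c(p^(j+2)) = c(p) c(p^(j+1)) - p c(p^j)`
(without the last term if `p ∣ N`) and the bounds `|c(p)| ≤ 2√p` for `p ∤ N`, `|c(p)| ≤ 1` for
`p ∣ N`; `f` is an eigenfunction of the Fricke involution: `f(-1/(Nτ)) = -w N τ² f(τ)` with `w = ±1`;
for all primes `p ∤ 2Δ` one has `p ∤ N` and `c(p) = a_p(E)`.  (Every elliptic curve over `ℚ` has such a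
form by the modularity theorem.) -/
structure IsFormOf (a b : ℤ) (N : ℕ) (f : CuspForm (Gamma0 N : Subgroup (GL (Fin 2) ℝ)) 2) :
    Prop where
  one : coef f 1 = 1
  real : ∀ n, (coef f n).im = 0
  mul : ∀ m n : ℕ, Nat.Coprime m n → coef f (m * n) = coef f m * coef f n
  pow : ∀ p j : ℕ, p.Prime → coef f (p ^ (j + 2)) = coef f p * coef f (p ^ (j + 1)) -
      (if p ∣ N then 0 else (p : ℂ) * coef f (p ^ j))
  good : ∀ p : ℕ, p.Prime → ¬ p ∣ N → ‖coef f p‖ ≤ 2 * Real.sqrt p
  bad : ∀ p : ℕ, p.Prime → p ∣ N → ‖coef f p‖ ≤ 1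
  fricke : ∃ w : ℝ, (w = 1 ∨ w = -1) ∧ ∀ τ τ' : ℍ, (τ' : ℂ) * ((N : ℂ) * (τ : ℂ)) = -1 →
    f τ' = -(w : ℂ) * (N : ℂ) * (τ : ℂ) ^ 2 * f τ
  points : ∀ p : ℕ, GoodPrime a b p → ¬ p ∣ N ∧ coef f p = (p : ℂ) - (pointCount a b p : ℂ)

/-- `pw t u n = α ^ n + β ^ n`, where `α`, `β` are the roots of `X² - t X + u`. -/
noncomputable def pw (t u : ℂ) : ℕ → ℂ
  | 0 => 2
  | 1 => t
  | n + 2 => t * pw t u (n + 1) - u * pw t u n

section
variable {F : Type} [Field F] [NumberField F]

/-- The number `a_v` of `E : y² = x³ + a x + b` at a finite place `v` of `F`: `Nv` minus the number of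
affine solutions `(x, y)` of the equation over the residue field `𝓞 F / v`. -/
noncomputable def av (a b : ℤ) (v : HeightOneSpectrum (𝓞 F)) : ℤ :=
  ((Ideal.absNorm v.asIdeal : ℕ) : ℤ) -
    ((Nat.card {x : (𝓞 F ⧸ v.asIdeal) × (𝓞 F ⧸ v.asIdeal) //
      x.2 ^ 2 = x.1 ^ 3 + (a : 𝓞 F ⧸ v.asIdeal) * x.1 + (b : 𝓞 F ⧸ v.asIdeal)} : ℕ) : ℤ)

open Classical in
/-- The Euler factor of `L(E/F, s)` at the finite place `v` of `F`.  If `v ∤ 2 Δ`, it is
`(1 - a_v (Nv)^(-s) + (Nv)^(1-2s))⁻¹`.  If `v ∣ 2 Δ` and `Nv = p ^ d` with `p` prime, it is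
`(1 - (α^d + β^d) (Nv)^(-s) + (Nv)^(1-2s))⁻¹` for `p ∤ N`, where `α`, `β` are the roots of
`X² - c(p) X + p`, and `(1 - c(p)^d (Nv)^(-s))⁻¹` for `p ∣ N`.  (The primes `p ∣ 2 Δ` will be
unramified in `F`, so that this is the Hasse-Weil factor.) -/
noncomputable def factor (a b : ℤ) {N : ℕ} (f : CuspForm (Gamma0 N : Subgroup (GL (Fin 2) ℝ)) 2)
    (s : ℂ) (v : HeightOneSpectrum (𝓞 F)) : ℂ :=
  if ((2 * (4 * a ^ 3 + 27 * b ^ 2) : ℤ) : 𝓞 F) ∈ v.asIdeal then
    (1 - pw (coef f (Ideal.absNorm v.asIdeal).minFac)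
          (if (Ideal.absNorm v.asIdeal).minFac ∣ N then 0 else ((Ideal.absNorm v.asIdeal).minFac : ℂ))
          ((Ideal.absNorm v.asIdeal).factorization (Ideal.absNorm v.asIdeal).minFac)
          * ((Ideal.absNorm v.asIdeal : ℕ) : ℂ) ^ (-s)
      + (if (Ideal.absNorm v.asIdeal).minFac ∣ N then (0 : ℂ) else
          ((Ideal.absNorm v.asIdeal : ℕ) : ℂ) ^ (1 - 2 * s)))⁻¹
  else
    (1 - ((av a b v : ℤ) : ℂ) * ((Ideal.absNorm v.asIdeal : ℕ) : ℂ) ^ (-s)
      + ((Ideal.absNorm v.asIdeal : ℕ) : ℂ) ^ (1 - 2 * s))⁻¹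

end

/-- The curve `E : y² = x³ + a x + b` over the field `F`. -/
def curve (a b : ℤ) (F : Type) [Field F] : WeierstrassCurve F := ⟨0, 0, 0, (a : F), (b : F)⟩

/-- The group `E(F)`. -/
abbrev Points (a b : ℤ) (F : Type) [Field F] : Type := (curve a b F).toAffine.Point

open Classical in
/-- The `l`-Selmer group of `E` over `ℚ` is trivial: `E(ℚ)` is finite of order prime to `l` and
`Ш(E/ℚ)` has no element of order `l`. -/
def TrivialSelmer (a b : ℤ) (l : ℕ) : Prop :=
  Finite (Points a b ℚ) ∧ ¬ l ∣ Nat.card (Points a b ℚ) ∧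
  ∀ s : Pool.Agent.TH841.SH.D.Sha (curve a b ℚ), l • s = 0 → s = 0

/-- `L(E/F, s)` is entire and of order zero at `s = 1`: there is an entire function `G` which for
`Re s > 3/2` is the Euler product of `E` over all finite places of `F`, and its order of vanishing at
`s = 1` is zero. -/
def FieldOrderZero (F : IntermediateField ℚ ℂ) [NumberField F] (a b : ℤ) {N : ℕ}
    (f : CuspForm (Gamma0 N : Subgroup (GL (Fin 2) ℝ)) 2) : Prop :=
  ∃ G : ℂ → ℂ, Differentiable ℂ G ∧
    (∀ s : ℂ, 3 / 2 < s.re → HasProd (fun v : HeightOneSpectrum (𝓞 F) => factor a b f s v) (G s)) ∧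
    analyticOrderAt G 1 = 0

open Classical in
/-- `E(F)` is finite of order prime to `l`, and `Ш(E/F)[l^∞] = 0`. -/
def TrivialOver (a b : ℤ) (l : ℕ) (F : Type) [Field F] [NumberField F] : Prop :=
  Finite (Points a b F) ∧ ¬ l ∣ Nat.card (Points a b F) ∧
  ∀ (n : ℕ) (s : Pool.Agent.TH841.NF.D.Sha (curve a b F)), l ^ n • s = 0 → s = 0

open Classical in
/-- `E(F) ⊗ ℚ_l` and `H¹_f(F, V_l E)` are zero. -/
def BothZero (a b : ℤ) (l : ℕ) [Fact l.Prime] (F : Type) [Field F] [NumberField F] : Prop :=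
  (∀ x : TensorProduct ℤ (Points a b F) ℚ_[l], x = 0) ∧ ∀ x : H1f l (curve a b F), x = 0

/-- The rank formula for `V_l E`, `E : y² = x³ + a x + b`, over all the number fields `F` contained in
`M`, with both sides zero: `L(E/F, s)` is entire and of order zero at `s = 1`, `H¹_f(F, V_l E) = 0`; and
`E(F)` is finite of order prime to `l`, `Ш(E/F)[l^∞] = 0`. -/
def RankFormula (l : ℕ) [Fact l.Prime] (M : IntermediateField ℚ ℂ) (a b : ℤ) {N : ℕ}
    (f : CuspForm (Gamma0 N : Subgroup (GL (Fin 2) ℝ)) 2) : Prop :=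
  ∀ (F : IntermediateField ℚ ℂ) [NumberField F], F ≤ M →
    FieldOrderZero F a b f ∧ TrivialOver a b l F ∧ BothZero a b l F

theorem trivSel_of {a b : ℤ} {l : ℕ} (h : TrivialSelmer a b l) :
    Pool.Agent.R901.LD.TrivSel a b l := by
  obtain ⟨f⟩ := Pool.Agent.R901.LD.equiv_WK a b ℚ
  obtain ⟨h1, h2, h3⟩ := h
  have f' : Pool.Agent.R901.LD.SP a b ℚ ≃ Points a b ℚ := f
  refine ⟨Finite.of_equiv _ f'.symm, ?_, h3⟩
  rw [Nat.card_congr f']
  exact h2

theorem pw_eq (t u : ℂ) : ∀ n : ℕ, pw t u n = W165.CE.pw t u n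
  | 0 => rfl
  | 1 => rfl
  | n + 2 => by rw [pw, W165.CE.pw, pw_eq t u (n + 1), pw_eq t u n]

theorem factor_eq {F : Type} [Field F] [NumberField F] (a b : ℤ) {N : ℕ}
    (f : CuspForm (Gamma0 N : Subgroup (GL (Fin 2) ℝ)) 2) (s : ℂ) (v : HeightOneSpectrum (𝓞 F)) :
    factor a b f s v = W165.CE.fac a b N (Pool.Agent.Y18.BSD.co f) s v := by
  unfold factor W165.CE.fac
  rw [pw_eq]
  rfl

theorem formula_of {a b : ℤ} {l : ℕ} [hl : Fact l.Prime] {N : ℕ}
    {f : CuspForm (Gamma0 N : Subgroup (GL (Fin 2) ℝ)) 2} {F : IntermediateField ℚ ℂ} [NumberField F]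
    (h7 : Pool.Agent.Y18.NF.RZ F a b f)
    (h : Finite (Pool.Agent.R901.LD.SP a b F) ∧ ¬ l ∣ Nat.card (Pool.Agent.R901.LD.SP a b F) ∧
      ∀ (k : ℕ) (s : Pool.Agent.TH841.NF.D.Sha (Pool.Agent.R901.LD.WK a b F)),
        (l ^ k : ℕ) • s = 0 → s = 0) :
    FieldOrderZero F a b f ∧ TrivialOver a b l F ∧ BothZero a b l F := by
  obtain ⟨g1, g2, g3⟩ := h
  obtain ⟨g4, g5⟩ := Pool.Agent.R901.LD.fin_WK g1
  obtain ⟨g6, g7⟩ := Pool.Agent.R901.LD.bk_zero g4 g3
  refine ⟨?_, ⟨g4, by rw [← g5] at g2; exact g2, g3⟩, g6, g7⟩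
  obtain ⟨G, hG1, hG2, hG3⟩ := h7
  refine ⟨G, hG1, fun s hs => ?_, analyticOrderAt_eq_zero.2 (Or.inr hG3)⟩
  refine (congrArg (fun g => HasProd g (G s)) (funext fun v => ?_)).mp (hG2 s hs)
  exact (factor_eq a b f s v).symm

/-- **Theorem.** Let `E_1, …, E_m` be elliptic curves over `ℚ` with `L(E_i, 1) ≠ 0` and with newforms
`f_i`, let `l` be an odd prime such that the `l`-Selmer groups of the `E_i` over `ℚ` are trivial,
and let `H` be an infinite group of Dirichlet characters of order dividing `l ^ n` and of squarefree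
conductors composed of primes `q ≠ 2` of good reduction modulo which the numbers of the points of the
`E_i` are prime to `l`. Then `H` has an infinite subgroup `H'` such that the rank formula holds for
`V_l E_i` for all `i` over all the number fields `F ⊂ ℂ` contained in the infinite abelian extension
attached to `H'`, with both sides zero. -/
theorem result (m : ℕ) (a b : Fin m → ℤ) (hE : ∀ i, 4 * a i ^ 3 + 27 * b i ^ 2 ≠ 0)
    (N : Fin m → ℕ) (hN : ∀ i, N i ≠ 0)
    (f : (i : Fin m) → CuspForm (Gamma0 (N i) : Subgroup (GL (Fin 2) ℝ)) 2)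
    (hf : ∀ i, IsFormOf (a i) (b i) (N i) (f i)) (h0 : ∀ i, AnalyticRankZero (a i) (b i))
    (l : ℕ) [hl : Fact l.Prime] (hl2 : l ≠ 2) (hS : ∀ i, TrivialSelmer (a i) (b i) l) (n : ℕ)
    (H : Subgroup Fam) (hH : IsCharGroup a b l n H) (hinf : (H : Set Fam).Infinite) :
    ∃ H' : Subgroup Fam, H' ≤ H ∧ (H' : Set Fam).Infinite ∧ ∀ i,
      RankFormula l (IntermediateField.adjoin ℚ {x : ℂ | ∃ c ∈ H', x = period c})
        (a i) (b i) (f i) := by
  have : ∀ i, NeZero (N i) := fun i => ⟨hN i⟩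
  have hf' : ∀ i, Pool.Agent.Y18.BSD.IsFormOf (a i) (b i) (N i) (f i) := fun i =>
    ⟨(hf i).one, (hf i).real, (hf i).mul, (hf i).pow, (hf i).good, (hf i).bad,
      (hf i).fricke, (hf i).points⟩
  have hOk : Pool.Agent.Y18.LP.HOk m a b l n H := ⟨hH.pow, hH.finite, hH.admissible⟩
  obtain ⟨H1, h1, h2, R, -, -, h3⟩ := Pool.Agent.R901.LD.split_L hl.1 hE n H hOk
  have hinf1 : (H1 : Set Fam).Infinite := Pool.Agent.R901.EC.infinite_of_reps hinf R h3
  have hOk1 : Pool.Agent.Y18.LP.HOk m a b l n H1 :=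
    ⟨fun c hc => hH.pow c (h1 hc), fun c hc => hH.finite c (h1 hc),
      fun c hc => hH.admissible c (h1 hc)⟩
  obtain ⟨H', h4, h5, -, h7⟩ := Pool.Agent.R901.LD.tower_char m a b hE N f hf' h0 l n hl.1 H1 hOk1
    hinf1
  have hOk' : Pool.Agent.Y18.LP.HOk m a b l n H' :=
    ⟨fun c hc => hOk1.pow c (h4 hc), fun c hc => hOk1.fin c (h4 hc),
      fun c hc => hOk1.adm c (h4 hc)⟩
  refine ⟨H', h4.trans h1, h5, fun i F _ hF => formula_of (h7 F hF i) ?_⟩
  exact Pool.Agent.R901.LD.curves_L hl.1 hl2 hE (fun i => trivSel_of (hS i)) n H'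
    hOk' (fun c hc => h2 c (h4 hc)) F hF i

end Pool.Agent.Results.MP_6e2fc3_nt.OddDegreeTowers
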